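import Pool.Agent.W815.RGC.Cnt
import Pool.Agent.W815.RGC.Mom
import Pool.Agent.W815.RGC.Deg
import Pool.Agent.W815.RGC.Law
import Pool.Agent.W815.RGC.GExpn2
import Pool.Agent.W815.RGC.GHyp
import Pool.Agent.W815.RGC.GGcd
import Pool.Agent.W815.RGC.GSplit2
import Pool.Agent.W815.RGC.GSame
import Pool.Agent.W815.RGC.GCross
import Pool.Agent.W815.RGC.GQbp
import Pool.Agent.W815.RGC.GBcg
import Pool.Agent.W815.RGC.GNav
import Pool.Agent.W815.RGC.GMl2
import Pool.Agent.W815.RGC.GMm
import Pool.Agent.W815.RGC.GCdf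
import Pool.Agent.W815.RGC.GReal
import Pool.Agent.W815.RGC.GLast

set_option autoImplicit false

/-!
# Gaussian law in short intervals for almost every random multiplicative function

`f_s(n) = ∏_{p ∣ n} s_p` for squarefree `n` and `f_s(n) = 0` otherwise (`f_s = μ` if all `s_p = -1`).
For independent random signs `s_p`, almost surely the conjecture of Good and Churchhouse on the
distribution of the sums over short intervals holds with `f_s` in place of `μ`, for every `ε` and
every `H(X)` with `X^ε < H(X) < X^(1-ε)`.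
-/

namespace Pool.Agent.Results.MP_4f18df_nt.RandomMultiplicativeGaussian

open MeasureTheory Filter

/-- the multiplicative function supported on the squarefree integers with values `s p` at primes -/
noncomputable def f (s : ℕ → ℤˣ) (n : ℕ) : ℝ :=
  open Classical in if Squarefree n then ∏ p ∈ n.primeFactors, ((s p : ℤ) : ℝ) else 0

theorem result {Ω : Type} [MeasurableSpace Ω] (μ : Measure Ω) [IsProbabilityMeasure μ]
    (e : ℕ → Ω → ℤˣ) (meas : ∀ p, Measurable (e p)) (ind : ProbabilityTheory.iIndepFun e μ)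
    (half : ∀ p, μ (e p ⁻¹' {1}) = 1 / 2) :
    ∀ᵐ ω ∂μ, ∀ ε : ℝ, 0 < ε → ε < 1 / 2 → ∀ H : ℝ → ℝ,
      (∀ᶠ X in atTop, X ^ ε < H X ∧ H X < X ^ (1 - ε)) → ∀ t : ℝ,
        Tendsto (fun X : ℝ => (volume {x : ℝ | x ∈ Set.Icc X (2 * X) ∧
          (∑ n ∈ (Finset.range (⌊x + H X⌋₊ + 1)).filter (fun n : ℕ => |(n : ℝ) - x| < H X / 2),
            f (fun p => e p ω) n) / Real.sqrt (H X / (Real.pi ^ 2 / 6)) ≤ t}).toReal / X)
          atTop (nhds (ProbabilityTheory.cdf (ProbabilityTheory.gaussianReal 0 1) t)) := by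
  have hq : Pool.Agent.W815.RGE.SQb := Pool.Agent.W815.RGE.qbp Pool.Agent.W815.RGC.deg
    Pool.Agent.W815.RGE.hyp Pool.Agent.W815.RGE.hol Pool.Agent.W815.RGE.gcd_large
    Pool.Agent.W815.RGE.split Pool.Agent.W815.RGE.same Pool.Agent.W815.RGC.cnt
    Pool.Agent.W815.RGE.cross
  filter_upwards [Pool.Agent.W815.RGE.bcg hq Pool.Agent.W815.RGC.tail Pool.Agent.W815.RGC.deg
    Pool.Agent.W815.RGC.law Ω _ μ inferInstance e ⟨meas, ind, half⟩] with ω hω
  have hu : Pool.Agent.W815.RGE.Unif (fun p => e p ω) := Pool.Agent.W815.RGE.cdf_unif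
    Pool.Agent.W815.RGE.ml Pool.Agent.W815.RGE.expn Pool.Agent.W815.RGE.nav
    Pool.Agent.W815.RGE.mm _ hω
  intro ε h0 h1 H hH t
  exact Pool.Agent.W815.RGE.last Pool.Agent.W815.RGE.realw _ hu ε h0 h1 H hH t

end Pool.Agent.Results.MP_4f18df_nt.RandomMultiplicativeGaussian
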